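import Pool.Agent.Q253.NF.G8

set_option autoImplicit false
set_option linter.unusedSectionVars false

/-!
# Relations between the zeros of the Artin L-functions of a Galois extension, length by length

`M/K` is any Galois extension of number fields with group `G` (Q1 is the case `K = ℚ`), `φ_v` a Frobenius element at each unramified
prime `v` of `K`.  For an irreducible character `χ` let `P_χ(u)` be the sum over the powers of the unramified primes
`∑ χ(φ_v^k) log q_v q_v^(-k/2) exp (-|u - k log q_v|)`, without the main term `(8/3) e^(u/2)` if `χ = 1`, and `E = ∑_χ P_χ`.  `N(γ)` is the order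
at `1/2 + iγ` of the product of the `L(s, χ)`.  Nothing is assumed.

1. Under Artin's conjecture and the Riemann hypothesis the mean of `-E` tends to `2 N(0)`, the `k`-th central moment tends to
   `T_k`, the sum over `γ_1 + ... + γ_k = 0` of `∏ N(γ_j) 2/(1+γ_j²)`, and `T_k ≥ r_k = Q_M^(k)(0)`, with equality iff there is no nontrivial
   relation of length `≤ k` and of the parity of `k` (and, for even `k ≥ 2`, every value occurs once).
2. Let Artin's conjecture hold for `M/K` (this is so if all `χ` are monomial).  For even `k ≥ 2` the Riemann hypothesis holds if and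
   only if the `k`-th moment is bounded, and the inequality `limsup M_k ≤ r_k` is equivalent to the Riemann hypothesis, every value once and no relation of even length `≤ k`, together; all these inequalities are equivalent to the
   Riemann hypothesis, every value once and the linear independence of `Γ_M`.
3. Let `Q(U)` be the mean of `∑_χ χ(1) |P_χ|²` and `V` the constant of the field `M`.  For any `M/K` and even `k ≥ 2` the inequalities
   `limsup Q ≤ V` and `limsup M_k ≤ r_k` are equivalent to Artin's conjecture, the Riemann hypothesis, simple zeros on the line for each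
   `χ`, every value once and no relation of even length `≤ k`; `limsup Q ≤ V` and `limsup M_k ≤ r_k` for all `k` to the same with the
   linear independence of `Γ_M`.
-/

namespace Pool.Agent.Results.MP_0f5a55_nt.GaloisRelationsByLength

open MeasureTheory Filter Topology Set Complex NumberField IsDedekindDomain

/-- `f` is a meromorphic continuation of `g` from `Re s > 1` to `ℂ` -/
def Continues (f g : ℂ → ℂ) : Prop := MeromorphicOn f univ ∧ ∀ s : ℂ, 1 < s.re → f s = g s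

/-- the irreducible complex characters of a group -/
def Irr (G : Type) [Group G] : Set (G → ℂ) :=
  {χ | ∃ (n : ℕ) (ρ : Representation ℂ G (Fin n → ℂ)), ρ.IsIrreducible ∧ χ = ρ.character}

/-- `ξ_F(s) = s (s-1) |d_F|^(s/2) Γ_ℝ(s)^r₁ Γ_ℂ(s)^r₂ ζ_F(s)`, for `Re s > 1` -/
noncomputable def xi (F : Type) [Field F] [NumberField F] (s : ℂ) : ℂ :=
  s * (s - 1) * ((|(discr F : ℝ)| : ℝ) : ℂ) ^ (s / 2) * Gammaℝ s ^ InfinitePlace.nrRealPlaces F *
    Gammaℂ s ^ InfinitePlace.nrComplexPlaces F * dedekindZeta F s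

/-- `V_F = 2 Re ((ξ_F'/ξ_F)(3/2) - (ξ_F'/ξ_F)'(3/2))` -/
noncomputable def V (F : Type) [Field F] [NumberField F] : ℝ :=
  2 * (logDeriv (xi F) (3 / 2) - deriv (logDeriv (xi F)) (3 / 2)).re

/-- the modified Bessel function of order `0` -/
noncomputable def I0 (w : ℂ) : ℂ := ∑' k : ℕ, (w / 2) ^ (2 * k) / ((Nat.factorial k : ℂ) ^ 2)

/-- the prime `v` of `K` is unramified in `F`: no prime `w` above `v` has `w² ∣ v` -/
def Unramified (F : Type) {K : Type} [Field K] [NumberField K] [Field F] [NumberField F] [Algebra K F]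
    (v : HeightOneSpectrum (𝓞 K)) : Prop :=
  ∀ w : HeightOneSpectrum (𝓞 F), w.under (𝓞 K) = v → ¬ v.asIdeal.map (algebraMap (𝓞 K) (𝓞 F)) ≤ w.asIdeal ^ 2

section
variable {K M : Type} [Field K] [NumberField K] [Field M] [NumberField M] [Algebra K M]

/-- `σ` is a Frobenius element at the prime `v` of `K` -/
def IsFrobenius (v : HeightOneSpectrum (𝓞 K)) (σ : M ≃ₐ[K] M) : Prop :=
  ∃ w : Ideal (𝓞 M), w.IsMaximal ∧ w.comap (algebraMap (𝓞 K) (𝓞 M)) = v.asIdeal ∧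
    ∀ x : 𝓞 M, ∃ y ∈ w, (y : M) = σ x - (x : M) ^ Ideal.absNorm v.asIdeal

variable (φ : HeightOneSpectrum (𝓞 K) → M ≃ₐ[K] M)

open Classical in
/-- the Artin L-function of `χ` for `Re s > 1` without the Euler factors at the ramified primes, as the exponential of its
logarithm `∑ χ(φ_v^(k+1)) / ((k+1) q_v^((k+1) s))` (`x.1 = v` unramified, `x.2 = k`) -/
noncomputable def artinL (χ : (M ≃ₐ[K] M) → ℂ) (s : ℂ) : ℂ :=
  Complex.exp (∑' x : HeightOneSpectrum (𝓞 K) × ℕ, if Unramified M x.1 then χ (φ x.1 ^ (x.2 + 1)) /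
    (((x.2 + 1 : ℕ) : ℂ) * (Ideal.absNorm x.1.asIdeal : ℂ) ^ (((x.2 + 1 : ℕ) : ℂ) * s)) else 0)

open Classical in
/-- the order at `s` of the meromorphic continuation of `L(s, χ)` (negative for poles) -/
noncomputable def ordL (χ : (M ≃ₐ[K] M) → ℂ) (s : ℂ) : ℤ :=
  if h : ∃ f, Continues f (artinL φ χ) then (meromorphicOrderAt h.choose s).untop₀ else 0

open Classical in
/-- `P_χ(u)`: the sum over the powers `v^(k+1)` of the unramified primes (`q = N v`) of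
`χ(φ_v^(k+1)) log q · q^(-(k+1)/2) · exp (-|u - (k+1) log q|)`, minus `(8/3) e^(u/2)` if `χ` is trivial -/
noncomputable def P (χ : (M ≃ₐ[K] M) → ℂ) (u : ℝ) : ℂ :=
  (∑' x : HeightOneSpectrum (𝓞 K) × ℕ, if Unramified M x.1 then χ (φ x.1 ^ (x.2 + 1)) *
    ((Real.log (Ideal.absNorm x.1.asIdeal) *
      Real.exp (-(((x.2 : ℝ) + 1) * Real.log (Ideal.absNorm x.1.asIdeal) / 2)) *
      Real.exp (-|u - ((x.2 : ℝ) + 1) * Real.log (Ideal.absNorm x.1.asIdeal)|) : ℝ) : ℂ) else 0) -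
    if ∀ g, χ g = 1 then ((8 / 3 * Real.exp (u / 2) : ℝ) : ℂ) else 0

/-- Artin's conjecture for `M/K` in `Re s > 0`: no poles, except at `s = 1` for the trivial character -/
def Artin : Prop := ∀ χ ∈ Irr (M ≃ₐ[K] M), ∀ s : ℂ, 0 < s.re → (s = 1 → ¬ ∀ g, χ g = 1) → 0 ≤ ordL φ χ s

/-- the Riemann hypothesis: no zeros with `Re s > 1/2` -/
def Riemann : Prop :=
  ∀ χ ∈ Irr (M ≃ₐ[K] M), ∀ s : ℂ, 1 / 2 < s.re → (s = 1 → ¬ ∀ g, χ g = 1) → ordL φ χ s ≤ 0

/-- the zeros of each `L(s, χ)` on the line are simple -/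
def Simple : Prop := ∀ χ ∈ Irr (M ≃ₐ[K] M), ∀ t : ℝ, ordL φ χ (1 / 2 + t * I) ≤ 1

/-- `Q(U)`, the mean of `∑_χ χ(1) |P_χ|²` -/
noncomputable def meanSquare (U : ℝ) : ℝ :=
  (1 / U) * ∫ u in (0 : ℝ)..U, ∑ᶠ χ ∈ Irr (M ≃ₐ[K] M), (χ 1).re * ‖P φ χ u‖ ^ 2

/-- the upper limit of the mean square is at most `c` -/
def Upper (c : ℝ) : Prop := ∀ ε : ℝ, 0 < ε → ∀ᶠ U : ℝ in atTop, meanSquare φ U ≤ c + ε

/-- `N(γ)`: the order at `1/2 + iγ` of the product of all `L(s, χ)` -/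
noncomputable def total (γ : ℝ) : ℤ := ∑ᶠ χ ∈ Irr (M ≃ₐ[K] M), ordL φ χ (1 / 2 + γ * I)

/-- `E(u)`, the real part of the sum of all `P_χ` -/
noncomputable def E (u : ℝ) : ℝ := (∑ᶠ χ ∈ Irr (M ≃ₐ[K] M), P φ χ u).re

/-- the permutation character of `G` on `G/H`: the number of fixed points -/
noncomputable def perm (H : Subgroup (M ≃ₐ[K] M)) (g : M ≃ₐ[K] M) : ℚ :=
  (Nat.card {x : (M ≃ₐ[K] M) ⧸ H // g • x = x} : ℚ)

/-- the sum of the irreducible characters is the combination with the coefficients `r` of the permutation characters -/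
def Represents (r : Subgroup (M ≃ₐ[K] M) → ℚ) : Prop :=
  ∀ g, ∑ᶠ χ ∈ Irr (M ≃ₐ[K] M), χ g = ∑ᶠ H : Subgroup (M ≃ₐ[K] M), (r H : ℂ) * (perm H g : ℂ)

/-- `k(t) = (1-t)^(-1/2) ∑_H r_H (ξ'/ξ)(1/2 + (1-t)^(1/2))`, `ξ` for the fixed field of `H` -/
noncomputable def circle (r : Subgroup (M ≃ₐ[K] M) → ℚ) (t : ℂ) : ℂ :=
  (1 - t) ^ (-(1 / 2) : ℂ) * ∑ᶠ H : Subgroup (M ≃ₐ[K] M),
    (r H : ℂ) * logDeriv (xi (IntermediateField.fixedField H)) (1 / 2 + (1 - t) ^ (1 / 2 : ℂ))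

/-- `R(λ)` -/
noncomputable def R (r : Subgroup (M ≃ₐ[K] M) → ℚ) (lam : ℝ) : ℝ :=
  Real.exp (1 / (4 * Real.pi * I) * ∮ t in C(0, 1 / 2), circle r t * Complex.log (I0 (4 * lam / t))).re

open Classical in
/-- `χ` is induced from a linear character of a subgroup -/
def Monomial {G : Type} [Group G] (χ : G → ℂ) : Prop :=
  ∃ (H : Subgroup G) (ψ : H →* ℂˣ), ∀ g, χ g =
    (Nat.card H : ℂ)⁻¹ * ∑ᶠ x : G, if h : x⁻¹ * g * x ∈ H then ((ψ ⟨x⁻¹ * g * x, h⟩ : ℂˣ) : ℂ) else 0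

/-- `Q_M(λ) = R(λ) / I₀(4λ)^(N(0)/2)` -/
noncomputable def Q (r : Subgroup (M ≃ₐ[K] M) → ℚ) (lam : ℝ) : ℝ :=
  R r lam / Real.sqrt (I0 ((4 * lam : ℝ) : ℂ)).re ^ (total φ 0).toNat

/-- the means of `-E` -/
noncomputable def mean (U : ℝ) : ℝ := (1 / U) * ∫ u in (0 : ℝ)..U, -E φ u

/-- the central moments: the means of `(-E - 2 N(0))^k` -/
noncomputable def moment (k : ℕ) (U : ℝ) : ℝ := (1 / U) * ∫ u in (0 : ℝ)..U, (-E φ u - 2 * total φ 0) ^ k

open Classical in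
/-- `T_k`: the sum over `γ_1 + ... + γ_k = 0`, all `γ_j ≠ 0`, of `∏ N(γ_j) 2/(1+γ_j²)` -/
noncomputable def T (k : ℕ) : ℝ :=
  ∑' s : Fin k → ℝ, if ∑ l, s l = 0 ∧ ∀ l, s l ≠ 0 then ∏ l, (total φ (s l) : ℝ) * (2 / (1 + s l ^ 2)) else 0

/-- the set `Γ_M` of the positive ordinates -/
abbrev Value : Type := {γ : ℝ // 0 < γ ∧ total φ γ ≠ 0}

/-- every relation `∑ n_γ γ = 0` of length `∑ |n_γ| ≤ k` and of the parity of `k` is trivial -/
def NoRelation (k : ℕ) : Prop :=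
  ∀ n : Value φ →₀ ℤ, ∑ i ∈ n.support, (n i : ℝ) * (i : ℝ) = 0 → ∑ i ∈ n.support, |n i| ≤ (k : ℤ) →
    Even ((k : ℤ) - ∑ i ∈ n.support, |n i|) → n = 0

/-- each value occurs once in the multiset `Γ_M` -/
def Once : Prop := ∀ γ : ℝ, 0 < γ → total φ γ ≤ 1

/-- the upper limit of the `k`-th central moment is at most `c` -/
def UpperMoment (k : ℕ) (c : ℝ) : Prop := ∀ ε : ℝ, 0 < ε → ∀ᶠ U : ℝ in atTop, moment φ k U ≤ c + ε

variable [IsGalois K M]

lemma artinL_eq {χ : (M ≃ₐ[K] M) → ℂ} (hφ : ∀ v, Unramified M v → IsFrobenius v (φ v)) (hχ : χ ∈ Irr (M ≃ₐ[K] M)) :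
    artinL φ χ = Pool.Agent.Q92.AR.artinL M χ := by
  classical
  funext s
  unfold artinL Pool.Agent.Q92.AR.artinL
  congr 1
  refine tsum_congr fun x => ?_
  unfold Pool.Agent.Q92.AR.artTerm
  by_cases hx : Unramified M x.1
  · rw [if_pos hx, if_pos (show Pool.Agent.Q92.AR.Unramified M x.1 from hx),
      Pool.Agent.Q284.SP.class_frob (fun g y => Pool.Agent.Q253.NF.G.irr_conj hχ g y) hx (hφ _ hx)]
  · rw [if_neg hx, if_neg (show ¬ Pool.Agent.Q92.AR.Unramified M x.1 from hx)]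

lemma ordL_eq {χ : (M ≃ₐ[K] M) → ℂ} (hφ : ∀ v, Unramified M v → IsFrobenius v (φ v)) (hχ : χ ∈ Irr (M ≃ₐ[K] M)) (s : ℂ) :
    ordL φ χ s = Pool.Agent.Q253.NF.G.ordL χ s := by
  unfold ordL Pool.Agent.Q253.NF.G.ordL
  rw [artinL_eq φ hφ hχ]
  rfl

lemma P_eq {χ : (M ≃ₐ[K] M) → ℂ} (hφ : ∀ v, Unramified M v → IsFrobenius v (φ v)) (hχ : χ ∈ Irr (M ≃ₐ[K] M)) (u : ℝ) :
    P φ χ u = Pool.Agent.Q253.NF.G.F χ u := by
  classical
  unfold P Pool.Agent.Q253.NF.G.F Pool.Agent.Q253.NF.ks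
  congr 1
  refine tsum_congr fun x => ?_
  by_cases hx : Unramified M x.1
  · rw [if_pos hx, if_pos (show x.1 ∈ {v : HeightOneSpectrum (𝓞 K) | Pool.Agent.Q92.AR.Unramified M v} from hx),
      Pool.Agent.Q284.SP.class_frob (fun g y => Pool.Agent.Q253.NF.G.irr_conj hχ g y) hx (hφ _ hx)]
  · rw [if_neg hx, if_neg (show ¬ x.1 ∈ {v : HeightOneSpectrum (𝓞 K) | Pool.Agent.Q92.AR.Unramified M v} from hx)]

lemma meanSquare_eq (hφ : ∀ v, Unramified M v → IsFrobenius v (φ v)) : meanSquare φ = Pool.Agent.Q253.NF.G.D2 K M := by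
  funext U
  unfold meanSquare Pool.Agent.Q253.NF.G.D2
  congr 1
  refine intervalIntegral.integral_congr fun u _ => ?_
  exact finsum_mem_congr rfl fun χ hχ => by rw [P_eq φ hφ hχ]

lemma total_eq (hφ : ∀ v, Unramified M v → IsFrobenius v (φ v)) (γ : ℝ) : total φ γ = Pool.Agent.Q253.NF.G.tot K M γ :=
  finsum_mem_congr rfl fun χ hχ => ordL_eq φ hφ hχ _

lemma E_eq (hφ : ∀ v, Unramified M v → IsFrobenius v (φ v)) (u : ℝ) : -E φ u = Pool.Agent.Q253.NF.G.fE K M u := by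
  unfold E Pool.Agent.Q253.NF.G.fE
  congr 2
  exact finsum_mem_congr rfl fun χ hχ => P_eq φ hφ hχ u

lemma rep_iff (r : Subgroup (M ≃ₐ[K] M) → ℚ) : Represents r ↔ Pool.Agent.Q253.NF.G.Rep K M r := by
  unfold Represents Pool.Agent.Q253.NF.G.Rep
  refine forall_congr' fun g => ?_
  have h : ∀ H : Subgroup (M ≃ₐ[K] M), Pool.Agent.Q92.RT.induced H 1 g = ((perm H g : ℚ) : ℂ) :=
    fun H => Pool.Agent.Q182.NF.induced_perm H g
  simp only [h]
  exact Iff.rfl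

/-- the conditions in the notation of the library -/
lemma two (hφ : ∀ v, Unramified M v → IsFrobenius v (φ v)) : (Artin φ ∧ Riemann φ) ↔
    (Pool.Agent.Q253.NF.G.AllOff K M ∧ Pool.Agent.Q253.NF.G.Nonneg K M) := by
  constructor
  · rintro ⟨hA, hR⟩
    refine ⟨fun χ hχ s hs h1 => ?_, fun χ hχ t => ?_⟩
    · rw [← ordL_eq φ hφ hχ]
      exact le_antisymm (hR χ hχ s hs h1) (hA χ hχ s (by linarith) h1)
    · have h2 := hA χ hχ (1 / 2 + t * I) (by simp) (fun h => by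
        have := congrArg Complex.re h
        norm_num at this)
      rw [ordL_eq φ hφ hχ] at h2
      exact h2
  · rintro ⟨hO, hN⟩
    refine ⟨fun χ hχ s hs h1 => ?_, fun χ hχ s hs h1 => ?_⟩
    · rw [ordL_eq φ hφ hχ]
      rcases lt_trichotomy s.re (1 / 2) with h2 | h2 | h2
      · obtain ⟨A⟩ := Pool.Agent.Q253.NF.G.exists_artD hχ
        have h3 := (Pool.Agent.Q253.NF.G.hyp_iff A hχ).2 (hO χ hχ) (s - 1 / 2) (by
          rw [Complex.sub_re]
          norm_num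
          intro h
          linarith)
        rw [Pool.Agent.Q253.NF.G.ordL_eq A hχ hs, h3, if_neg]
        · simp
        · rintro rfl
          norm_num at h2
      · have h3 : s = 1 / 2 + (s.im : ℂ) * I := by
          apply Complex.ext
          · simp [h2]
          · simp
        have h4 := hN χ hχ s.im
        rw [h3]
        exact h4
      · rw [hO χ hχ s h2 h1]
    · rw [ordL_eq φ hφ hχ, hO χ hχ s hs h1]

lemma simple_iff (hφ : ∀ v, Unramified M v → IsFrobenius v (φ v)) : Simple φ ↔ Pool.Agent.Q253.NF.G.Simple K M :=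
  forall_congr' fun χ => forall_congr' fun hχ => forall_congr' fun t => by rw [ordL_eq φ hφ hχ]; exact Iff.rfl

lemma three (hφ : ∀ v, Unramified M v → IsFrobenius v (φ v)) : (Artin φ ∧ Riemann φ ∧ Simple φ) ↔
    (Pool.Agent.Q253.NF.G.AllOff K M ∧ Pool.Agent.Q253.NF.G.Nonneg K M ∧ Pool.Agent.Q253.NF.G.Simple K M) := by
  rw [← and_assoc, ← and_assoc, two φ hφ, simple_iff φ hφ]

lemma norel_iff (hφ : ∀ v, Unramified M v → IsFrobenius v (φ v)) (k : ℕ) : NoRelation φ k ↔ Pool.Agent.Q253.NF.G.NR K M k :=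
  Pool.Agent.Q253.NF.G.norel_congr (p := fun γ => 0 < γ ∧ total φ γ ≠ 0)
    (q := fun γ => 0 < γ ∧ Pool.Agent.Q253.NF.G.tot K M γ ≠ 0) (fun γ => by rw [total_eq φ hφ]) k

lemma li_levels : LinearIndependent ℚ (fun γ : Value φ => (γ : ℝ)) ↔ ∀ k, NoRelation φ k :=
  Pool.Agent.Q68.LM.t_LI (Value φ) fun γ => (γ : ℝ)

/-- everything about the moments -/
lemma moments (hφ : ∀ v, Unramified M v → IsFrobenius v (φ v)) {r : Subgroup (M ≃ₐ[K] M) → ℚ} (hr : Represents r)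
    (hA : Artin φ ∧ Riemann φ) : Tendsto (mean φ) atTop (𝓝 (2 * (total φ 0 : ℝ))) ∧
      ∀ k : ℕ, Tendsto (moment φ k) atTop (𝓝 (T φ k)) ∧ (Odd k → iteratedDeriv k (Q φ r) 0 = 0) ∧
        iteratedDeriv k (Q φ r) 0 ≤ T φ k ∧
        (T φ k = iteratedDeriv k (Q φ r) 0 ↔ NoRelation φ k ∧ (Even k → 2 ≤ k → Once φ)) := by
  obtain ⟨hO, hN⟩ := (two φ hφ).1 hA
  obtain ⟨h1, h2⟩ := Pool.Agent.Q253.NF.G.main3 ((rep_iff r).1 hr) hO hN
  have ht : ∀ γ, total φ γ = Pool.Agent.Q253.NF.G.tot K M γ := total_eq φ hφ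
  have hm : mean φ = fun U : ℝ => (1 / U) * ∫ u in (0 : ℝ)..U, Pool.Agent.Q253.NF.G.fE K M u := by
    funext U
    unfold mean
    simp only [E_eq φ hφ]
  have hM : ∀ k, moment φ k = Pool.Agent.Q253.NF.G.MM K M k := by
    intro k
    funext U
    unfold moment Pool.Agent.Q253.NF.G.MM
    simp only [E_eq φ hφ, ht]
  have hQ : Q φ r = Pool.Agent.Q253.NF.G.QQ r := by
    funext lam
    unfold Q Pool.Agent.Q253.NF.G.QQ
    rw [ht]
    rfl
  have hT : ∀ k, T φ k = Pool.Agent.Q253.NF.G.TT K M k := by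
    intro k
    unfold T Pool.Agent.Q253.NF.G.TT
    simp only [ht]
  rw [hm, ht]
  refine ⟨h1, fun k => ?_⟩
  obtain ⟨g1, g2, g3, g4⟩ := h2 k
  rw [hM, hQ, hT]
  refine ⟨g1, g2, g3, ?_⟩
  rw [norel_iff φ hφ]
  unfold Once
  simp only [ht]
  exact g4

lemma artin_iff (hφ : ∀ v, Unramified M v → IsFrobenius v (φ v)) : Artin φ ↔ Pool.Agent.Q253.NF.G.ArtinH K M :=
  forall_congr' fun χ => forall_congr' fun hχ => forall_congr' fun s => by rw [ordL_eq φ hφ hχ]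

lemma riemann_iff (hφ : ∀ v, Unramified M v → IsFrobenius v (φ v)) (hA : Artin φ) :
    Riemann φ ↔ Pool.Agent.Q253.NF.G.AllOff K M :=
  ⟨fun h => ((two φ hφ).1 ⟨hA, h⟩).1, fun h => ((two φ hφ).2 ⟨h, Pool.Agent.Q253.NF.G.nonneg_of_artin
    ((artin_iff φ hφ).1 hA)⟩).2⟩

lemma moment_eq (hφ : ∀ v, Unramified M v → IsFrobenius v (φ v)) (k : ℕ) : moment φ k = Pool.Agent.Q253.NF.G.MM K M k := by
  funext U
  unfold moment Pool.Agent.Q253.NF.G.MM
  simp only [E_eq φ hφ, total_eq φ hφ]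

lemma Q_eq (hφ : ∀ v, Unramified M v → IsFrobenius v (φ v)) (r : Subgroup (M ≃ₐ[K] M) → ℚ) :
    Q φ r = Pool.Agent.Q253.NF.G.QQ r := by
  funext lam
  unfold Q Pool.Agent.Q253.NF.G.QQ
  rw [total_eq φ hφ]
  rfl

/-- one inequality, given Artin's conjecture -/
lemma one_ineq (hφ : ∀ v, Unramified M v → IsFrobenius v (φ v)) {r : Subgroup (M ≃ₐ[K] M) → ℚ} (hr : Represents r)
    (hA : Artin φ) {k : ℕ} (hk : Even k) (hk2 : 2 ≤ k) :
    (Riemann φ ∧ Once φ ∧ NoRelation φ k) ↔ UpperMoment φ k (iteratedDeriv k (Q φ r) 0) := by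
  have h1 := Pool.Agent.Q253.NF.G.main5 ((artin_iff φ hφ).1 hA) ((rep_iff r).1 hr) hk hk2
  have h2 : Once φ ↔ ∀ γ : ℝ, 0 < γ → Pool.Agent.Q253.NF.G.tot K M γ ≤ 1 := by
    unfold Once
    simp only [total_eq φ hφ]
  unfold UpperMoment
  rw [moment_eq φ hφ, Q_eq φ hφ, riemann_iff φ hφ hA, norel_iff φ hφ, h2, ← h1, and_comm (a := ∀ γ : ℝ, 0 < γ → _)]

lemma upper_iff (hφ : ∀ v, Unramified M v → IsFrobenius v (φ v)) {r : Subgroup (M ≃ₐ[K] M) → ℚ} (hr : Represents r)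
    (hA : Artin φ ∧ Riemann φ) (k : ℕ) :
    UpperMoment φ k (iteratedDeriv k (Q φ r) 0) ↔ NoRelation φ k ∧ (Even k → 2 ≤ k → Once φ) := by
  obtain ⟨-, h2⟩ := moments φ hφ hr hA
  obtain ⟨g1, -, g3, g4⟩ := h2 k
  rw [← g4]
  constructor
  · intro h
    refine le_antisymm (le_of_forall_pos_le_add fun ε hε => ?_) g3
    exact le_of_tendsto g1 (h ε hε)
  · intro h ε hε
    refine (g1.eventually_lt_const (?_ : T φ k < iteratedDeriv k (Q φ r) 0 + ε)).mono fun U hU => hU.le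
    rw [h]
    linarith

end

/-- **The zeros of the Artin L-functions of a Galois extension: linear relations, length by length.** -/
theorem result (K M : Type) [Field K] [NumberField K] [Field M] [NumberField M] [Algebra K M] [IsGalois K M]
    (φ : HeightOneSpectrum (𝓞 K) → M ≃ₐ[K] M) (hφ : ∀ v, Unramified M v → IsFrobenius v (φ v)) :
    (∀ χ ∈ Irr (M ≃ₐ[K] M), ∃ f, Continues f (artinL φ χ)) ∧ (∃ r : Subgroup (M ≃ₐ[K] M) → ℚ, Represents r) ∧
    ((∀ χ ∈ Irr (M ≃ₐ[K] M), Monomial χ) → Artin φ) ∧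
    ∀ r : Subgroup (M ≃ₐ[K] M) → ℚ, Represents r →
      (Artin φ → Riemann φ → Tendsto (mean φ) atTop (𝓝 (2 * (total φ 0 : ℝ))) ∧
        ∀ k : ℕ, Tendsto (moment φ k) atTop (𝓝 (T φ k)) ∧ (Odd k → iteratedDeriv k (Q φ r) 0 = 0) ∧
          iteratedDeriv k (Q φ r) 0 ≤ T φ k ∧
          (T φ k = iteratedDeriv k (Q φ r) 0 ↔ NoRelation φ k ∧ (Even k → 2 ≤ k → Once φ)) ∧
          (UpperMoment φ k (iteratedDeriv k (Q φ r) 0) ↔ NoRelation φ k ∧ (Even k → 2 ≤ k → Once φ))) ∧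
      (Artin φ →
        (∀ k : ℕ, Even k → 2 ≤ k → (Riemann φ ↔ ∃ C : ℝ, ∀ᶠ U : ℝ in atTop, moment φ k U ≤ C) ∧
          ((Riemann φ ∧ Once φ ∧ NoRelation φ k) ↔ UpperMoment φ k (iteratedDeriv k (Q φ r) 0))) ∧
        ((Riemann φ ∧ Once φ ∧ LinearIndependent ℚ (fun γ : Value φ => (γ : ℝ))) ↔
          ∀ k : ℕ, UpperMoment φ k (iteratedDeriv k (Q φ r) 0))) ∧
      (∀ k : ℕ, Even k → 2 ≤ k → ((Artin φ ∧ Riemann φ ∧ Simple φ ∧ Once φ ∧ NoRelation φ k) ↔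
        (Upper φ (V M) ∧ UpperMoment φ k (iteratedDeriv k (Q φ r) 0)))) ∧
      ((Artin φ ∧ Riemann φ ∧ Simple φ ∧ Once φ ∧ LinearIndependent ℚ (fun γ : Value φ => (γ : ℝ))) ↔
        (Upper φ (V M) ∧ ∀ k : ℕ, UpperMoment φ k (iteratedDeriv k (Q φ r) 0))) := by
  have hup : (Artin φ ∧ Riemann φ ∧ Simple φ) ↔ Upper φ (V M) := by
    rw [three φ hφ]
    refine (Pool.Agent.Q253.NF.G.main1 (K := K) (M := M)).2.2.1.trans ?_
    unfold Upper Pool.Agent.Q253.NF.G.Upper2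
    rw [meanSquare_eq φ hφ]
    exact Iff.rfl
  refine ⟨fun χ hχ => ?_, ?_, fun h => ?_, fun r hr => ⟨fun hA hR => ?_, fun hA => ⟨fun k hk hk2 => ?_, ?_⟩, fun k hk hk2 => ?_, ?_⟩⟩
  · rw [artinL_eq φ hφ hχ]
    exact Pool.Agent.Q253.NF.G.exists_cont hχ
  · obtain ⟨r, hr⟩ := Pool.Agent.Q253.NF.G.exists_rep K M
    exact ⟨r, (rep_iff r).2 hr⟩
  · exact (artin_iff φ hφ).2 (Pool.Agent.Q253.NF.G.artin_of_mono h)
  · obtain ⟨h1, h2⟩ := moments φ hφ hr ⟨hA, hR⟩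
    exact ⟨h1, fun k => ⟨(h2 k).1, (h2 k).2.1, (h2 k).2.2.1, (h2 k).2.2.2, upper_iff φ hφ hr ⟨hA, hR⟩ k⟩⟩
  · refine ⟨⟨fun hR => ?_, fun h => ?_⟩, one_ineq φ hφ hr hA hk hk2⟩
    · obtain ⟨-, h2⟩ := moments φ hφ hr ⟨hA, hR⟩
      exact ⟨T φ k + 1, (((h2 k).1).eventually_lt_const (lt_add_one _)).mono fun U hU => hU.le⟩
    · obtain ⟨C, hC⟩ := h
      rw [moment_eq φ hφ] at hC
      exact (riemann_iff φ hφ hA).2 (Pool.Agent.Q253.NF.G.off_of_moment ((artin_iff φ hφ).1 hA) hk C hC hk2)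
  · constructor
    · rintro ⟨hR, hO, hL⟩
      exact fun k => (upper_iff φ hφ hr ⟨hA, hR⟩ k).2 ⟨(li_levels φ).1 hL k, fun _ _ => hO⟩
    · intro h
      obtain ⟨hR, hO, -⟩ := (one_ineq φ hφ hr hA even_two le_rfl).2 (h 2)
      exact ⟨hR, hO, (li_levels φ).2 fun k => ((upper_iff φ hφ hr ⟨hA, hR⟩ k).1 (h k)).1⟩
  · constructor
    · rintro ⟨hA, hR, hS, hO, hN⟩
      exact ⟨hup.1 ⟨hA, hR, hS⟩, (upper_iff φ hφ hr ⟨hA, hR⟩ k).2 ⟨hN, fun _ _ => hO⟩⟩
    · rintro ⟨h1, h2⟩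
      obtain ⟨hA, hR, hS⟩ := hup.2 h1
      obtain ⟨hN, hO⟩ := (upper_iff φ hφ hr ⟨hA, hR⟩ k).1 h2
      exact ⟨hA, hR, hS, hO hk hk2, hN⟩
  · constructor
    · rintro ⟨hA, hR, hS, hO, hL⟩
      exact ⟨hup.1 ⟨hA, hR, hS⟩, fun k => (upper_iff φ hφ hr ⟨hA, hR⟩ k).2 ⟨(li_levels φ).1 hL k, fun _ _ => hO⟩⟩
    · rintro ⟨h1, h2⟩
      obtain ⟨hA, hR, hS⟩ := hup.2 h1
      have h3 := fun k => (upper_iff φ hφ hr ⟨hA, hR⟩ k).1 (h2 k)
      exact ⟨hA, hR, hS, (h3 2).2 even_two le_rfl, (li_levels φ).2 fun k => (h3 k).1⟩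

end Pool.Agent.Results.MP_0f5a55_nt.GaloisRelationsByLength
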