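import Pool.Agent.Q284.SZ.Com

/-!
# Any zeros on the critical line, for all abelian twists, are compatible with the Riemann hypothesis

`K = F(T)`, `F` ANY finite field, `q = |F|`, `n ≥ 4`, `N ≥ 0`.  For every primitive Hayes character `χ` (the idele class
characters of `K` up to unramified twists `|·|^s`) let `y χ j`, `j < N`, be real numbers, with or without repetitions,
`y (conj χ) = y χ`.  There are self-dual tempered unramified representations `Π_P` of `PGL_n(K_P)` at all finite places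
`P`, with Satake parameters `α P j`, such that for EVERY `χ` the twisted `L`-function `L(s, Π ⊗ χ)` is entire, a
polynomial in `q^(-s)` of the prescribed degree `(2 N + 1) h(χ)`, with the functional equation `s ↦ 1 - s` with the
prescribed root number `ε χ`, satisfies the Riemann hypothesis, and vanishes at all the points `1/2 + i y χ j` and
`1/2 - i y χ j`, with multiplicity if they are repeated.

So the Euler product, Ramanujan, and the functional equation and the Riemann hypothesis of ALL abelian twists do not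
exclude common zeros of all twists, multiple zeros, or zeros with given rational linear relations between the ordinates
of the zeros of different twists.

Projects WE, GE, SL, SZ: plan, statements with paper proofs and assembly by helper284; lemmas of the projects WE, GE, SL
proved by helpers 14, 24, 31, 38, 53, 68, 92, 96, 150, 151, 154, 166, 190, 195, 198, 208, 211, 223, 224, 237, 241, 265,
275, 277.
-/

set_option autoImplicit false

open Finset Polynomial ComplexConjugate

namespace Pool.Agent.Results.MP_0f5a55_nt.PrescribedZeros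

open Pool.Agent.Q284.PS (Prim Place absPow Nice Tempered)
open Pool.Agent.Q284.PX (SelfDual)
open Pool.Agent.Q284.GE (RiemannHypothesis)

open Classical in
theorem result : ∀ n N : ℕ, 4 ≤ n → ∃ M₀ : ℕ, 3 ≤ M₀ ∧
    ∀ (F : Type) [Field F] [Fintype F] (ν M : ℕ), 9 ≤ ν → M₀ ≤ M →
    ∀ (h : F[X] → ℕ → (F[X] → ℂ) → ℕ) (y : (F[X] → ℂ) → ℕ → ℝ) (ε : (F[X] → ℂ) → ℂ),
    -- the degrees are the numbers `(2 N + 1) * h Q l χ`
    (∀ (Q : F[X]) (l : ℕ) (χ : F[X] → ℂ), Prim Q l χ →
      ν * (Q.natDegree + max M (l + 1) - 2) ≤ h Q l χ ∧ h Q l (fun f => conj (χ f)) = h Q l χ) →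
    -- the ordinates and the root numbers
    (∀ χ, y (fun f => conj (χ f)) = y χ) →
    (∀ χ, ‖ε χ‖ = 1 ∧ ε (fun f => conj (χ f)) = conj (ε χ)) →
    ∃ α : F[X] → Fin n → ℂ, Tempered α ∧ SelfDual α ∧
      (∀ P : F[X], P.Monic → Irreducible P →
        ‖∑ j, α P j‖ ≤ (Fintype.card F : ℝ) ^ (-(9 / 10 * (1 / 2 - 4 / (ν : ℝ)) * P.natDegree))) ∧
      ∀ (Q : F[X]) (l : ℕ) (χ : F[X] → ℂ), Prim Q l χ → ∃ L : ℂ → ℂ,
        Nice (Fintype.card F) ((2 * N + 1) * h Q l χ) (ε χ) L ∧ RiemannHypothesis L ∧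
        (∀ t : ℝ, (((range N).filter (fun i => y χ i = t)).card : ℕ∞) ≤
            analyticOrderAt L (1 / 2 + (t : ℂ) * Complex.I) ∧
          (((range N).filter (fun i => y χ i = t)).card : ℕ∞) ≤
            analyticOrderAt L (1 / 2 - (t : ℂ) * Complex.I)) ∧
        ∀ s : ℂ, 1 - 9 / 10 * (1 / 2 - 4 / (ν : ℝ)) < s.re →
          HasProd (fun P : Place F => ∏ j, (1 - α P.1 j * (χ P.1 * absPow P.1 s))⁻¹) (L s) := by
  intro n N hn
  obtain ⟨M₀, hM₀, H⟩ := Pool.Agent.Q284.SZ.comStm n N hn
  refine ⟨M₀, hM₀, ?_⟩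
  intro F _ _ ν M hν hM h y ε hh hy hε
  obtain ⟨α, h1, h2, h3, h4⟩ := H F ν M hν hM (Pool.Agent.Q284.GE.lev h) y ε (by
    intro Q l χ hχ
    rw [Pool.Agent.Q284.GE.lev_eq _ hχ, Pool.Agent.Q284.GE.lev_eq _ (Pool.Agent.Q284.GE.prim_conj hχ)]
    exact hh Q l χ hχ) hy hε
  refine ⟨α, h1, h2, h3, ?_⟩
  intro Q l χ hχ
  obtain ⟨L, h6, h7, h8, h9⟩ := h4 Q l χ hχ
  rw [Pool.Agent.Q284.GE.lev_eq _ hχ] at h6
  exact ⟨L, h6, h7, h8, h9⟩

end Pool.Agent.Results.MP_0f5a55_nt.PrescribedZeros
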