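import Pool.Agent.Q253.NF.G8

set_option autoImplicit false
set_option linter.unusedSectionVars false

/-!
# Simple zeros of the Artin L-functions of a Galois extension, from one inequality for primes

`M/K` is any Galois extension of number fields with group `G` (Q1 is the case `K = ℚ`), `φ_v` a Frobenius element at each unramified
prime `v` of `K`.  For an irreducible character `χ` let `P_χ(u)` be the sum over the powers of the unramified primes
`∑ χ(φ_v^k) log q_v q_v^(-k/2) exp (-|u - k log q_v|)`, without the main term `(8/3) e^(u/2)` if `χ = 1`; let `S(U)` be the mean over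
`[0, U]` of `∑_χ χ(1) |P_χ|²`, `V` the constant of the field `M` (see `V`), and `e_χ(γ) = n (n-1) (2/(1+γ²))²`, `n` the order of
`L(s, χ)` at `1/2 + iγ`.  Nothing is assumed.

1. All `L(s, χ)` are without zeros and poles with `Re s > 1/2` if and only if `S` is bounded.
2. In this case `S(U)` tends to `V + ∑_χ χ(1) ∑_γ e_χ(γ)`.
3. Artin's conjecture (`Re s > 0`), the Riemann hypothesis and the simplicity of the zeros on the line, for all `L(s, χ)`, together, are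
   equivalent to the one inequality `limsup S ≤ V`; and to `S → V`.
4. `limsup S ≤ V + δ` implies 1. and `χ(1) e_χ(t) ≤ δ` for all `χ` and `t`: no poles and no multiple zeros `1/2 + it` of
   `L(s, χ)` with `(1+t²)² < 8 χ(1)/δ`.
-/

namespace Pool.Agent.Results.MP_0f5a55_nt.SimpleZerosOneInequality

open MeasureTheory Filter Topology Set Complex NumberField IsDedekindDomain

/-- `f` is a meromorphic continuation of `g` from `Re s > 1` to `ℂ` -/
def Continues (f g : ℂ → ℂ) : Prop := MeromorphicOn f univ ∧ ∀ s : ℂ, 1 < s.re → f s = g s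

/-- the irreducible complex characters of a group -/
def Irr (G : Type) [Group G] : Set (G → ℂ) :=
  {χ | ∃ (n : ℕ) (ρ : Representation ℂ G (Fin n → ℂ)), ρ.IsIrreducible ∧ χ = ρ.character}

/-- `ξ_F(s) = s (s-1) |d_F|^(s/2) Γ_ℝ(s)^r₁ Γ_ℂ(s)^r₂ ζ_F(s)`, for `Re s > 1` -/
noncomputable def xi (F : Type) [Field F] [NumberField F] (s : ℂ) : ℂ :=
  s * (s - 1) * ((|(discr F : ℝ)| : ℝ) : ℂ) ^ (s / 2) * Gammaℝ s ^ InfinitePlace.nrRealPlaces F *
    Gammaℂ s ^ InfinitePlace.nrComplexPlaces F * dedekindZeta F s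

/-- `V_F = 2 Re ((ξ_F'/ξ_F)(3/2) - (ξ_F'/ξ_F)'(3/2))` -/
noncomputable def V (F : Type) [Field F] [NumberField F] : ℝ :=
  2 * (logDeriv (xi F) (3 / 2) - deriv (logDeriv (xi F)) (3 / 2)).re

/-- the prime `v` of `K` is unramified in `F`: no prime `w` above `v` has `w² ∣ v` -/
def Unramified (F : Type) {K : Type} [Field K] [NumberField K] [Field F] [NumberField F] [Algebra K F]
    (v : HeightOneSpectrum (𝓞 K)) : Prop :=
  ∀ w : HeightOneSpectrum (𝓞 F), w.under (𝓞 K) = v → ¬ v.asIdeal.map (algebraMap (𝓞 K) (𝓞 F)) ≤ w.asIdeal ^ 2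

section
variable {K M : Type} [Field K] [NumberField K] [Field M] [NumberField M] [Algebra K M]

/-- `σ` is a Frobenius element at the prime `v` of `K` -/
def IsFrobenius (v : HeightOneSpectrum (𝓞 K)) (σ : M ≃ₐ[K] M) : Prop :=
  ∃ w : Ideal (𝓞 M), w.IsMaximal ∧ w.comap (algebraMap (𝓞 K) (𝓞 M)) = v.asIdeal ∧
    ∀ x : 𝓞 M, ∃ y ∈ w, (y : M) = σ x - (x : M) ^ Ideal.absNorm v.asIdeal

variable (φ : HeightOneSpectrum (𝓞 K) → M ≃ₐ[K] M)

open Classical in
/-- the Artin L-function of `χ` for `Re s > 1` without the Euler factors at the ramified primes, as the exponential of its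
logarithm `∑ χ(φ_v^(k+1)) / ((k+1) q_v^((k+1) s))` (`x.1 = v` unramified, `x.2 = k`) -/
noncomputable def artinL (χ : (M ≃ₐ[K] M) → ℂ) (s : ℂ) : ℂ :=
  Complex.exp (∑' x : HeightOneSpectrum (𝓞 K) × ℕ, if Unramified M x.1 then χ (φ x.1 ^ (x.2 + 1)) /
    (((x.2 + 1 : ℕ) : ℂ) * (Ideal.absNorm x.1.asIdeal : ℂ) ^ (((x.2 + 1 : ℕ) : ℂ) * s)) else 0)

open Classical in
/-- the order at `s` of the meromorphic continuation of `L(s, χ)` (negative for poles) -/
noncomputable def ordL (χ : (M ≃ₐ[K] M) → ℂ) (s : ℂ) : ℤ :=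
  if h : ∃ f, Continues f (artinL φ χ) then (meromorphicOrderAt h.choose s).untop₀ else 0

open Classical in
/-- `P_χ(u)`: the sum over the powers `v^(k+1)` of the unramified primes (`q = N v`) of
`χ(φ_v^(k+1)) log q · q^(-(k+1)/2) · exp (-|u - (k+1) log q|)`, minus `(8/3) e^(u/2)` if `χ` is trivial -/
noncomputable def P (χ : (M ≃ₐ[K] M) → ℂ) (u : ℝ) : ℂ :=
  (∑' x : HeightOneSpectrum (𝓞 K) × ℕ, if Unramified M x.1 then χ (φ x.1 ^ (x.2 + 1)) *
    ((Real.log (Ideal.absNorm x.1.asIdeal) *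
      Real.exp (-(((x.2 : ℝ) + 1) * Real.log (Ideal.absNorm x.1.asIdeal) / 2)) *
      Real.exp (-|u - ((x.2 : ℝ) + 1) * Real.log (Ideal.absNorm x.1.asIdeal)|) : ℝ) : ℂ) else 0) -
    if ∀ g, χ g = 1 then ((8 / 3 * Real.exp (u / 2) : ℝ) : ℂ) else 0

/-- Artin's conjecture for `M/K` in `Re s > 0`: no poles, except at `s = 1` for the trivial character -/
def Artin : Prop := ∀ χ ∈ Irr (M ≃ₐ[K] M), ∀ s : ℂ, 0 < s.re → (s = 1 → ¬ ∀ g, χ g = 1) → 0 ≤ ordL φ χ s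

/-- the Riemann hypothesis: no zeros with `Re s > 1/2` -/
def Riemann : Prop :=
  ∀ χ ∈ Irr (M ≃ₐ[K] M), ∀ s : ℂ, 1 / 2 < s.re → (s = 1 → ¬ ∀ g, χ g = 1) → ordL φ χ s ≤ 0

/-- the zeros of each `L(s, χ)` on the line are simple -/
def Simple : Prop := ∀ χ ∈ Irr (M ≃ₐ[K] M), ∀ t : ℝ, ordL φ χ (1 / 2 + t * I) ≤ 1

/-- `Q(U)`, the mean of `∑_χ χ(1) |P_χ|²` -/
noncomputable def meanSquare (U : ℝ) : ℝ :=
  (1 / U) * ∫ u in (0 : ℝ)..U, ∑ᶠ χ ∈ Irr (M ≃ₐ[K] M), (χ 1).re * ‖P φ χ u‖ ^ 2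

/-- the upper limit of the mean square is at most `c` -/
def Upper (c : ℝ) : Prop := ∀ ε : ℝ, 0 < ε → ∀ᶠ U : ℝ in atTop, meanSquare φ U ≤ c + ε

/-- no zeros and no poles with `Re s > 1/2` (except the pole at `s = 1` of the trivial character) -/
def OnTheLine : Prop :=
  ∀ χ ∈ Irr (M ≃ₐ[K] M), ∀ s : ℂ, 1 / 2 < s.re → (s = 1 → ¬ ∀ g, χ g = 1) → ordL φ χ s = 0

/-- `e_χ(γ) = n (n-1) (2/(1+γ²))²`, `n` the order of `L(s, χ)` at `1/2 + iγ` -/
noncomputable def excess (χ : (M ≃ₐ[K] M) → ℂ) (γ : ℝ) : ℝ :=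
  (ordL φ χ (1 / 2 + γ * I) : ℝ) * ((ordL φ χ (1 / 2 + γ * I) : ℝ) - 1) * (2 / (1 + γ ^ 2)) ^ 2

variable [IsGalois K M]

lemma artinL_eq {χ : (M ≃ₐ[K] M) → ℂ} (hφ : ∀ v, Unramified M v → IsFrobenius v (φ v)) (hχ : χ ∈ Irr (M ≃ₐ[K] M)) :
    artinL φ χ = Pool.Agent.Q92.AR.artinL M χ := by
  classical
  funext s
  unfold artinL Pool.Agent.Q92.AR.artinL
  congr 1
  refine tsum_congr fun x => ?_
  unfold Pool.Agent.Q92.AR.artTerm
  by_cases hx : Unramified M x.1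
  · rw [if_pos hx, if_pos (show Pool.Agent.Q92.AR.Unramified M x.1 from hx),
      Pool.Agent.Q284.SP.class_frob (fun g y => Pool.Agent.Q253.NF.G.irr_conj hχ g y) hx (hφ _ hx)]
  · rw [if_neg hx, if_neg (show ¬ Pool.Agent.Q92.AR.Unramified M x.1 from hx)]

lemma ordL_eq {χ : (M ≃ₐ[K] M) → ℂ} (hφ : ∀ v, Unramified M v → IsFrobenius v (φ v)) (hχ : χ ∈ Irr (M ≃ₐ[K] M)) (s : ℂ) :
    ordL φ χ s = Pool.Agent.Q253.NF.G.ordL χ s := by
  unfold ordL Pool.Agent.Q253.NF.G.ordL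
  rw [artinL_eq φ hφ hχ]
  rfl

lemma P_eq {χ : (M ≃ₐ[K] M) → ℂ} (hφ : ∀ v, Unramified M v → IsFrobenius v (φ v)) (hχ : χ ∈ Irr (M ≃ₐ[K] M)) (u : ℝ) :
    P φ χ u = Pool.Agent.Q253.NF.G.F χ u := by
  classical
  unfold P Pool.Agent.Q253.NF.G.F Pool.Agent.Q253.NF.ks
  congr 1
  refine tsum_congr fun x => ?_
  by_cases hx : Unramified M x.1
  · rw [if_pos hx, if_pos (show x.1 ∈ {v : HeightOneSpectrum (𝓞 K) | Pool.Agent.Q92.AR.Unramified M v} from hx),
      Pool.Agent.Q284.SP.class_frob (fun g y => Pool.Agent.Q253.NF.G.irr_conj hχ g y) hx (hφ _ hx)]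
  · rw [if_neg hx, if_neg (show ¬ x.1 ∈ {v : HeightOneSpectrum (𝓞 K) | Pool.Agent.Q92.AR.Unramified M v} from hx)]

lemma meanSquare_eq (hφ : ∀ v, Unramified M v → IsFrobenius v (φ v)) : meanSquare φ = Pool.Agent.Q253.NF.G.D2 K M := by
  funext U
  unfold meanSquare Pool.Agent.Q253.NF.G.D2
  congr 1
  refine intervalIntegral.integral_congr fun u _ => ?_
  exact finsum_mem_congr rfl fun χ hχ => by rw [P_eq φ hφ hχ]

/-- the conditions in the notation of the library -/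
lemma two (hφ : ∀ v, Unramified M v → IsFrobenius v (φ v)) : (Artin φ ∧ Riemann φ) ↔
    (Pool.Agent.Q253.NF.G.AllOff K M ∧ Pool.Agent.Q253.NF.G.Nonneg K M) := by
  constructor
  · rintro ⟨hA, hR⟩
    refine ⟨fun χ hχ s hs h1 => ?_, fun χ hχ t => ?_⟩
    · rw [← ordL_eq φ hφ hχ]
      exact le_antisymm (hR χ hχ s hs h1) (hA χ hχ s (by linarith) h1)
    · have h2 := hA χ hχ (1 / 2 + t * I) (by simp) (fun h => by
        have := congrArg Complex.re h
        norm_num at this)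
      rw [ordL_eq φ hφ hχ] at h2
      exact h2
  · rintro ⟨hO, hN⟩
    refine ⟨fun χ hχ s hs h1 => ?_, fun χ hχ s hs h1 => ?_⟩
    · rw [ordL_eq φ hφ hχ]
      rcases lt_trichotomy s.re (1 / 2) with h2 | h2 | h2
      · obtain ⟨A⟩ := Pool.Agent.Q253.NF.G.exists_artD hχ
        have h3 := (Pool.Agent.Q253.NF.G.hyp_iff A hχ).2 (hO χ hχ) (s - 1 / 2) (by
          rw [Complex.sub_re]
          norm_num
          intro h
          linarith)
        rw [Pool.Agent.Q253.NF.G.ordL_eq A hχ hs, h3, if_neg]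
        · simp
        · rintro rfl
          norm_num at h2
      · have h3 : s = 1 / 2 + (s.im : ℂ) * I := by
          apply Complex.ext
          · simp [h2]
          · simp
        have h4 := hN χ hχ s.im
        rw [h3]
        exact h4
      · rw [hO χ hχ s h2 h1]
    · rw [ordL_eq φ hφ hχ, hO χ hχ s hs h1]

lemma simple_iff (hφ : ∀ v, Unramified M v → IsFrobenius v (φ v)) : Simple φ ↔ Pool.Agent.Q253.NF.G.Simple K M :=
  forall_congr' fun χ => forall_congr' fun hχ => forall_congr' fun t => by rw [ordL_eq φ hφ hχ]; exact Iff.rfl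

lemma three (hφ : ∀ v, Unramified M v → IsFrobenius v (φ v)) : (Artin φ ∧ Riemann φ ∧ Simple φ) ↔
    (Pool.Agent.Q253.NF.G.AllOff K M ∧ Pool.Agent.Q253.NF.G.Nonneg K M ∧ Pool.Agent.Q253.NF.G.Simple K M) := by
  rw [← and_assoc, ← and_assoc, two φ hφ, simple_iff φ hφ]

lemma line_iff (hφ : ∀ v, Unramified M v → IsFrobenius v (φ v)) : OnTheLine φ ↔ Pool.Agent.Q253.NF.G.AllOff K M :=
  forall_congr' fun χ => forall_congr' fun hχ => forall_congr' fun s => by rw [ordL_eq φ hφ hχ]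

lemma excess_eq {χ : (M ≃ₐ[K] M) → ℂ} (hφ : ∀ v, Unramified M v → IsFrobenius v (φ v)) (hχ : χ ∈ Irr (M ≃ₐ[K] M)) :
    excess φ χ = Pool.Agent.Q253.NF.G.e χ := by
  funext γ
  unfold excess Pool.Agent.Q253.NF.G.e Pool.Agent.Q253.NF.G.o
  rw [ordL_eq φ hφ hχ]

end

/-- **Artin's conjecture, the Riemann hypothesis and simple zeros for all characters of a Galois group are one inequality for
primes.** -/
theorem result (K M : Type) [Field K] [NumberField K] [Field M] [NumberField M] [Algebra K M] [IsGalois K M]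
    (φ : HeightOneSpectrum (𝓞 K) → M ≃ₐ[K] M) (hφ : ∀ v, Unramified M v → IsFrobenius v (φ v)) :
    (∀ χ ∈ Irr (M ≃ₐ[K] M), ∃ f, Continues f (artinL φ χ)) ∧
    (OnTheLine φ ↔ ∃ C : ℝ, ∀ᶠ U : ℝ in atTop, meanSquare φ U ≤ C) ∧
    (OnTheLine φ → (∀ χ ∈ Irr (M ≃ₐ[K] M), Summable (excess φ χ)) ∧
      Tendsto (meanSquare φ) atTop (𝓝 (V M + ∑ᶠ χ ∈ Irr (M ≃ₐ[K] M), (χ 1).re * ∑' γ : ℝ, excess φ χ γ))) ∧
    ((Artin φ ∧ Riemann φ ∧ Simple φ) ↔ Upper φ (V M)) ∧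
    ((Artin φ ∧ Riemann φ ∧ Simple φ) ↔ Tendsto (meanSquare φ) atTop (𝓝 (V M))) ∧
    ∀ δ : ℝ, Upper φ (V M + δ) → OnTheLine φ ∧ ∀ χ ∈ Irr (M ≃ₐ[K] M), ∀ t : ℝ, (χ 1).re * excess φ χ t ≤ δ := by
  obtain ⟨g1, g2, g3, g4, g5⟩ := Pool.Agent.Q253.NF.G.main1 (K := K) (M := M)
  have hup : ∀ c : ℝ, Upper φ c ↔ Pool.Agent.Q253.NF.G.Upper2 K M c := by
    intro c
    unfold Upper Pool.Agent.Q253.NF.G.Upper2
    rw [meanSquare_eq φ hφ]
  refine ⟨fun χ hχ => ?_, ?_, fun hO => ?_, ?_, ?_, fun δ hδ => ?_⟩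
  · rw [artinL_eq φ hφ hχ]
    exact Pool.Agent.Q253.NF.G.exists_cont hχ
  · rw [line_iff φ hφ, meanSquare_eq φ hφ]
    exact g1
  · obtain ⟨h1, h2⟩ := g2 ((line_iff φ hφ).1 hO)
    refine ⟨fun χ hχ => by rw [excess_eq φ hφ hχ]; exact h1 χ hχ, ?_⟩
    rw [meanSquare_eq φ hφ, finsum_mem_congr rfl fun χ hχ => by rw [excess_eq φ hφ hχ]]
    exact h2
  · rw [three φ hφ, hup]
    exact g3
  · rw [three φ hφ, meanSquare_eq φ hφ]
    exact g4
  · obtain ⟨h1, h2⟩ := g5 δ ((hup _).1 hδ)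
    exact ⟨(line_iff φ hφ).2 h1, fun χ hχ t => by rw [excess_eq φ hφ hχ]; exact h2 χ hχ t⟩

end Pool.Agent.Results.MP_0f5a55_nt.SimpleZerosOneInequality
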