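import Pool.Agent.Q127.ET.Val

/-!
# Critical zeros of tempered `L`-functions at any given subset of an arithmetic progression

For every large `d ≡ 3 (mod 4)`, every large integer `q`, every set `A` of natural numbers and all signs there is a
tempered `L`-function of degree `d` and conductor `q` in the axiomatic sense of Iwaniec and Kowalski (*Analytic number
theory*, section 5.1; `d` local roots of absolute value one at every prime, as for Artin `L`-functions at the unramified
primes) which vanishes at `1/2 + 32πi(k+1)/d` exactly if `k ∈ A`.  So the linear independence of the ordinates of the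
critical zeros over `ℚ`, and even of any two of them, fails as badly as possible in this class, within every family
with one functional equation.
-/

set_option autoImplicit false

open Complex Filter Set

namespace Pool.Agent.Results.MP_0f5a55_nt.TemperedZerosAtAnySubset

/-- The completed function `Λ(s) = q^{s/2} π^{-ds/2} ∏_{j<d} Γ((s + κ_j)/2) · L(s)`. -/
noncomputable def Lambda (q : ℕ) {d : ℕ} (κ : Fin d → ℝ) (L : ℂ → ℂ) (s : ℂ) : ℂ :=
  (q : ℂ) ^ (s / 2) * (Real.pi : ℂ) ^ (-(d * s / 2)) * (∏ j, Gamma ((s + κ j) / 2)) * L s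

/-- `L` is an entire `L`-function of degree `d` and conductor `q` with real coefficients `a n`, local roots `α p j`
(`j < d`, `p` prime), spectral parameters `κ j` and root number `ε`. -/
structure IsLFunction (d q : ℕ) (a : ℕ → ℝ) (α : ℕ → Fin d → ℂ) (κ : Fin d → ℝ) (ε : ℝ) (L : ℂ → ℂ) : Prop where
  /-- `a(1) = 1` -/
  one : a 1 = 1
  /-- the coefficients are multiplicative -/
  mult : ∀ m n : ℕ, Nat.Coprime m n → a (m * n) = a m * a n
  /-- all `d` local roots at every prime have absolute value one (Ramanujan conjecture) -/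
  unitary : ∀ p : ℕ, p.Prime → ∀ j, ‖α p j‖ = 1
  /-- trivial central character -/
  det_one : ∀ p : ℕ, p.Prime → ∏ j, α p j = 1
  /-- the local roots are closed under complex conjugation -/
  selfdual : ∀ p : ℕ, p.Prime → ∀ z : ℂ, ∏ j, (1 - α p j * z) = ∏ j, (1 - starRingEnd ℂ (α p j) * z)
  /-- `∑ a(p^k) z^k = ∏_{j<d} (1 - α_j(p) z)⁻¹` -/
  loc : ∀ p : ℕ, p.Prime → ∀ z : ℂ, ‖z‖ < 1 →
    HasSum (fun k : ℕ => ((a (p ^ k) : ℝ) : ℂ) * z ^ k) (∏ j, (1 - α p j * z))⁻¹
  /-- the Dirichlet series converges absolutely for `Re s > 1` -/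
  summable : ∀ s : ℂ, 1 < s.re → LSeriesSummable (fun n => ((a n : ℝ) : ℂ)) s
  /-- `L` is the sum of the Dirichlet series for `Re s > 1` -/
  series : ∀ s : ℂ, 1 < s.re → L s = LSeries (fun n => ((a n : ℝ) : ℂ)) s
  /-- Euler product of degree `d` -/
  euler : ∀ s : ℂ, 1 < s.re → HasProd (fun p : Nat.Primes => (∏ j, (1 - α p j * ((p : ℕ) : ℂ) ^ (-s)))⁻¹) (L s)
  /-- `L` is entire -/
  entire : Differentiable ℂ L
  /-- `L` has order at most one -/
  order_one : ∀ e : ℝ, 0 < e → ∃ C : ℝ, ∀ s : ℂ, ‖L s‖ ≤ C * Real.exp (‖s‖ ^ (1 + e))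
  /-- the conductor is a positive integer -/
  conductor : 1 ≤ q
  /-- root number -/
  root : ε = 1 ∨ ε = -1
  /-- the spectral parameters are real, with `0 < κ_j < 2` -/
  kappa : ∀ j, 0 < κ j ∧ κ j < 2
  /-- functional equation `Λ(s) = ε Λ(1 - s)`, at every `s` at which no gamma factor of either side has a pole -/
  functional : ∀ s : ℂ, (∀ (j : Fin d) (n : ℕ), s + κ j ≠ -(2 * (n : ℂ))) →
    (∀ (j : Fin d) (n : ℕ), 1 - s + κ j ≠ -(2 * (n : ℂ))) → Lambda q κ L s = ε * Lambda q κ L (1 - s)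


/-- the structure of the library file and the one above have the same fields -/
theorem conv {d q : ℕ} {a : ℕ → ℝ} {α : ℕ → Fin d → ℂ} {κ : Fin d → ℝ} {ε : ℝ} {L : ℂ → ℂ}
    (hL : Pool.Agent.Q127.ET.IsLFunction d q a α κ ε L) : IsLFunction d q a α κ ε L :=
  { one := hL.one
    mult := hL.mult
    unitary := hL.unitary
    det_one := hL.det_one
    selfdual := hL.selfdual
    loc := hL.loc
    summable := hL.summable
    series := hL.series
    euler := hL.euler
    entire := hL.entire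
    order_one := hL.order_one
    conductor := hL.conductor
    root := hL.root
    kappa := hL.kappa
    functional := hL.functional }

/-- **Zeros of tempered `L`-functions exactly at any given subset of an arithmetic progression of the critical line.** -/
theorem result : ∃ d₀ : ℕ, ∀ d : ℕ, d₀ ≤ d → d % 4 = 3 → ∃ q₀ : ℕ, ∀ q : ℕ, q₀ ≤ q →
    -- the values at the points `1/2 + 32πi(k+1)/d` of all these functions lie on the fixed real lines `ℝ u k`
    ∃ u : ℕ → ℂ, (∀ k, ‖u k‖ = 1) ∧
      -- for all prescribed signs (`0`: a zero) there is such a function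
      ∀ sg : ℕ → SignType, ∃ (a : ℕ → ℝ) (α : ℕ → Fin d → ℂ) (L : ℂ → ℂ),
        IsLFunction d q a α (fun j => (4 * (j : ℕ) + 1) / (2 * d)) ((-1) ^ ((d + 1) / 4)) L ∧
        ∃ r : ℕ → ℝ, (∀ k : ℕ, L (1 / 2 + ((32 * Real.pi * (k + 1) / d : ℝ) : ℂ) * I) = r k * u k) ∧
          (∀ k : ℕ, SignType.sign (r k) = sg k) ∧
          ∀ k : ℕ, L (1 / 2 + ((32 * Real.pi * (k + 1) / d : ℝ) : ℂ) * I) = 0 ↔ sg k = 0 := by
  obtain ⟨m₀, hm₀, H⟩ := Pool.Agent.Q127.ET.prescribeT
  refine ⟨4 * m₀ + 3, fun d hd hd4 => ?_⟩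
  obtain ⟨m, hm⟩ : ∃ m : ℕ, d = 4 * m + 3 := ⟨d / 4, by omega⟩
  subst hm
  obtain ⟨q₀, κ, hq₀, hκ, Hq⟩ := H m (by omega)
  refine ⟨q₀, fun q hq => ?_⟩
  obtain ⟨u, hu, Hr⟩ := Hq q hq
  have hq2 : (2:ℝ) ≤ q := by exact_mod_cast hq₀.trans hq
  have hdR : ((4 * m + 3 : ℕ) : ℝ) = 4 * m + 3 := by push_cast; rfl
  have he : ((4 * m + 3 : ℕ) + 1) / 4 = m + 1 := by omega
  refine ⟨u, hu, fun sg => ?_⟩
  obtain ⟨B, hB⟩ : ∃ B : ℕ → ℝ, B = fun k : ℕ => κ * (q : ℝ) ^ ((1 : ℝ) / 4 - 3 / (4 * (4 * m + 3))) *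
        ((k : ℝ) + 1) ^ ((m : ℝ) - 1 / 2) / Real.log (q * (k + 2)) ^ 3 := ⟨_, rfl⟩
  have hpos : ∀ k : ℕ, 0 < B k := by
    intro k
    have hk : (0:ℝ) ≤ k := Nat.cast_nonneg k
    have hLg : 0 < Real.log (q * ((k:ℝ) + 2)) := Real.log_pos (by nlinarith)
    have hq0 : (0:ℝ) < q := by linarith
    rw [hB]
    positivity
  have hsgle : ∀ s : SignType, |(s : ℝ)| ≤ 1 := by
    intro s
    cases s <;> simp
  obtain ⟨x, L, hL, hv⟩ := Hr (fun k => ((sg k : SignType) : ℝ) * B k) (fun k => by
    have h1 := hpos k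
    have h2 : |((sg k : SignType) : ℝ) * B k| ≤ B k := by
      rw [abs_mul, abs_of_pos h1]
      have := hsgle (sg k)
      nlinarith
    rw [hB] at h2
    simp only at h2 ⊢
    rw [hB]
    exact h2)
  refine ⟨Pool.Agent.Q127.ET.atc m x, Pool.Agent.Q127.ET.rt m x, L, ?_, fun k => ((sg k : SignType) : ℝ) * B k, ?_, ?_, ?_⟩
  · rw [he]
    exact conv hL
  · rw [hdR]
    exact hv
  · intro k
    simp only
    rw [sign_mul, sign_pos (hpos k), mul_one]
    cases sg k <;> simp
  · intro k
    rw [hdR, hv k]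
    have huk : u k ≠ 0 := by
      intro h
      have := hu k
      rw [h, norm_zero] at this
      exact zero_ne_one this
    have hBk : ((B k : ℝ) : ℂ) ≠ 0 := by exact_mod_cast (hpos k).ne'
    push_cast
    constructor
    · intro h
      rcases mul_eq_zero.1 h with h1 | h1
      · rcases mul_eq_zero.1 h1 with h2 | h2
        · generalize sg k = s at h2 ⊢
          cases s
          · rfl
          · simp at h2
          · simp at h2
        · exact absurd h2 hBk
      · exact absurd h1 huk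
    · intro h
      rw [h]
      simp

end Pool.Agent.Results.MP_0f5a55_nt.TemperedZerosAtAnySubset
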